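import Mathlib

/-!
# Powers of natural numbers with truncated mantissas

A pair `(m, e)` stands for `m * 2 ^ e`. All operations round down (`L`) or up (`U`).
-/

set_option autoImplicit false

namespace Pool.Agent.H45.Chi

/-- the value of a pair -/
def vl (a : ℕ × ℕ) : ℕ := a.1 * 2 ^ a.2

/-- round down -/
def rdL (m e : ℕ) : ℕ × ℕ :=
  if Nat.blt m (2 ^ 120) then (m, e)
  else if Nat.blt m (2 ^ 180) then (m / 2 ^ 60, e + 60) else (m / 2 ^ 120, e + 120)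

/-- round up -/
def rdU (m e : ℕ) : ℕ × ℕ :=
  if Nat.blt m (2 ^ 120) then (m, e)
  else if Nat.blt m (2 ^ 180) then (m / 2 ^ 60 + 1, e + 60) else (m / 2 ^ 120 + 1, e + 120)

/-- product rounded down -/
def mlL (a b : ℕ × ℕ) : ℕ × ℕ := rdL (a.1 * b.1) (a.2 + b.2)

/-- product rounded up -/
def mlU (a b : ℕ × ℕ) : ℕ × ℕ := rdU (a.1 * b.1) (a.2 + b.2)

/-- power rounded down -/
def pwL : ℕ → ℕ × ℕ → ℕ → ℕ × ℕ
  | 0, _, _ => (1, 0)
  | f + 1, x, n => if Nat.beq n 0 then (1, 0) else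
      if Nat.beq (n % 2) 0 then pwL f (mlL x x) (n / 2)
      else mlL x (pwL f (mlL x x) (n / 2))

/-- power rounded up -/
def pwU : ℕ → ℕ × ℕ → ℕ → ℕ × ℕ
  | 0, _, _ => (1, 0)
  | f + 1, x, n => if Nat.beq n 0 then (1, 0) else
      if Nat.beq (n % 2) 0 then pwU f (mlU x x) (n / 2)
      else mlU x (pwU f (mlU x x) (n / 2))

/-- comparison -/
def ltF (a b : ℕ × ℕ) : Bool := Nat.blt (a.1 * 2 ^ (a.2 - b.2)) (b.1 * 2 ^ (b.2 - a.2))

theorem vl_rdL (m e : ℕ) : vl (rdL m e) ≤ m * 2 ^ e := by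
  unfold rdL
  split_ifs
  · exact le_rfl
  · simp only [vl]
    rw [pow_add, mul_comm (2 ^ e), ← mul_assoc]
    exact Nat.mul_le_mul_right _ (Nat.div_mul_le_self _ _)
  · simp only [vl]
    rw [pow_add, mul_comm (2 ^ e), ← mul_assoc]
    exact Nat.mul_le_mul_right _ (Nat.div_mul_le_self _ _)

theorem le_vl_rdU (m e : ℕ) : m * 2 ^ e ≤ vl (rdU m e) := by
  have h : ∀ s : ℕ, m ≤ (m / 2 ^ s + 1) * 2 ^ s := by
    intro s
    have := Nat.lt_succ_iff.1 (Nat.lt_succ_of_lt (Nat.lt_mul_div_succ m (b := 2 ^ s) (by positivity)))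
    rwa [mul_comm] at this
  unfold rdU
  split_ifs
  · exact le_rfl
  · simp only [vl]
    rw [pow_add, mul_comm (2 ^ e), ← mul_assoc]
    exact Nat.mul_le_mul_right _ (h 60)
  · simp only [vl]
    rw [pow_add, mul_comm (2 ^ e), ← mul_assoc]
    exact Nat.mul_le_mul_right _ (h 120)

theorem vl_mlL {a b : ℕ × ℕ} {x y : ℕ} (ha : vl a ≤ x) (hb : vl b ≤ y) : vl (mlL a b) ≤ x * y := by
  refine (vl_rdL _ _).trans ?_
  calc a.1 * b.1 * 2 ^ (a.2 + b.2) = vl a * vl b := by simp only [vl, pow_add]; ring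
    _ ≤ _ := Nat.mul_le_mul ha hb

theorem le_vl_mlU {a b : ℕ × ℕ} {x y : ℕ} (ha : x ≤ vl a) (hb : y ≤ vl b) :
    x * y ≤ vl (mlU a b) := by
  refine le_trans ?_ (le_vl_rdU _ _)
  calc x * y ≤ vl a * vl b := Nat.mul_le_mul ha hb
    _ = _ := by simp only [vl, pow_add]; ring

theorem vl_pwL : ∀ (f : ℕ) {a : ℕ × ℕ} {x : ℕ} (n : ℕ), 0 < x → vl a ≤ x →
    vl (pwL f a n) ≤ x ^ n
  | 0, a, x, n, hx, _ => by
    simp only [pwL, vl]
    exact Nat.one_le_iff_ne_zero.2 (pow_pos hx n).ne'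
  | f + 1, a, x, n, hx, h => by
    rw [pwL]
    split_ifs with h1 h2
    · rw [Nat.beq_eq] at h1
      simp [vl, h1]
    · rw [Nat.beq_eq] at h2
      have h3 := vl_pwL f (n / 2) (Nat.mul_pos hx hx) (vl_mlL h h)
      rwa [← sq, ← pow_mul, show 2 * (n / 2) = n by omega] at h3
    · rw [Nat.beq_eq] at h2
      have h3 := vl_pwL f (n / 2) (Nat.mul_pos hx hx) (vl_mlL h h)
      rw [← sq, ← pow_mul] at h3
      have h4 := vl_mlL h h3
      rwa [← pow_succ', show 2 * (n / 2) + 1 = n by omega] at h4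

theorem le_vl_pwU : ∀ (f : ℕ) {a : ℕ × ℕ} {x : ℕ} (n : ℕ), n < 2 ^ f → x ≤ vl a →
    x ^ n ≤ vl (pwU f a n)
  | 0, a, x, n, hn, _ => by
    have : n = 0 := by simpa using hn
    simp [pwU, vl, this]
  | f + 1, a, x, n, hn, h => by
    have hn' : n / 2 < 2 ^ f := by rw [pow_succ] at hn; omega
    rw [pwU]
    split_ifs with h1 h2
    · rw [Nat.beq_eq] at h1
      simp [vl, h1]
    · rw [Nat.beq_eq] at h2
      have h3 := le_vl_pwU f (n / 2) hn' (le_vl_mlU h h)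
      rwa [← sq, ← pow_mul, show 2 * (n / 2) = n by omega] at h3
    · rw [Nat.beq_eq] at h2
      have h3 := le_vl_pwU f (n / 2) hn' (le_vl_mlU h h)
      rw [← sq, ← pow_mul] at h3
      have h4 := le_vl_mlU h h3
      rwa [← pow_succ', show 2 * (n / 2) + 1 = n by omega] at h4

theorem ltF_sound {a b : ℕ × ℕ} {x y : ℕ} (h : ltF a b = true) (hx : x ≤ vl a) (hy : vl b ≤ y) :
    x < y := by
  rw [ltF, Nat.blt_eq] at h
  refine hx.trans_lt (lt_of_lt_of_le ?_ hy)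
  simp only [vl]
  have h2 : a.1 * 2 ^ (a.2 - b.2) * 2 ^ min a.2 b.2 < b.1 * 2 ^ (b.2 - a.2) * 2 ^ min a.2 b.2 :=
    Nat.mul_lt_mul_of_pos_right h (by positivity)
  rw [mul_assoc, mul_assoc, ← pow_add, ← pow_add] at h2
  rwa [show a.2 - b.2 + min a.2 b.2 = a.2 by omega, show b.2 - a.2 + min a.2 b.2 = b.2 by omega]
    at h2

theorem vl_self (x : ℕ) : vl (x, 0) = x := by simp [vl]

end Pool.Agent.H45.Chi
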