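import Pool.Agent.H45.Chi.Window
import Pool.Agent.H45.Chi.Flt

/-!
# The windows: a certificate
-/

set_option autoImplicit false

open Finset Filter Topology

namespace Pool.Agent.H45.Chi

open Pool.Agent.H43.L1

/-- numerator of `Zv (V / 100000)` -/
def zN (V : ℕ) : ℕ :=
  100000 ^ 7 + 2 * V * 100000 ^ 6 + 2 * V ^ 3 * 100000 ^ 4 + 2 * V ^ 7

/-- numerator of `Mv (V / 100000)` -/
def mN (V : ℕ) : ℕ := 2 * V * 100000 ^ 6 + 6 * V ^ 3 * 100000 ^ 4 + 14 * V ^ 7

/-- numerator of `Su (U / 10000)` -/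
def sN (U : ℕ) : ℕ :=
  10000 ^ 4 + 2 * U * 10000 ^ 3 + 2 * U ^ 2 * 10000 ^ 2 + 2 * U ^ 4

/-- the numerical test for one window -/
def okW (E' V U A E : ℕ) : Bool :=
  Nat.blt 0 V && Nat.blt V 100000 && Nat.blt 0 U && Nat.ble U 10000 &&
  Nat.blt A (2 ^ 17) && Nat.blt E (2 ^ 17) &&
  Nat.blt (A * zN V) (100000 * mN V) && Nat.blt (100000 * mN V) (2 * E' * zN V) &&
  ltF (mlU (mlU (mlU (mlU (pwU 17 (1388, 0) 100000) (pwU 17 (sN U, 0) 100000))
      (pwU 20 (100000, 0) (7 * 100000))) (pwU 17 (V, 0) A)) (pwU 17 (10000, 0) E))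
    (mlL (mlL (mlL (mlL (pwL 17 (1000, 0) 100000) (pwL 17 (zN V, 0) 100000))
      (pwL 17 (100000, 0) A)) (pwL 17 (U, 0) E)) (pwL 19 (10000, 0) (4 * 100000)))

/-- the test for a chain of windows -/
def okL : ℕ → List (ℕ × ℕ × ℕ × ℕ) → Bool
  | _, [] => true
  | E', (V, U, A, E) :: l => okW E' V U A E && okL E l

/-- the end of a chain of windows -/
def endL : ℕ → List (ℕ × ℕ × ℕ × ℕ) → ℕ
  | E', [] => E'
  | _, (_, _, _, E) :: l => endL E l

theorem okW_sound {E' V U A E : ℕ} (h : okW E' V U A E = true) :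
    ∀ᶠ n : ℕ in atTop, ∀ k : ℕ, ((E' : ℝ) / 100000) * n ≤ 2 ^ k →
      (2 : ℝ) ^ k ≤ ((E : ℝ) / 100000) * n →
      ¬ (unitGraph n).Colorable ⌊(1.388 : ℝ) ^ n⌋₊ := by
  simp only [okW, Bool.and_eq_true, Nat.blt_eq, Nat.ble_eq] at h
  obtain ⟨⟨⟨⟨⟨⟨⟨⟨h1, h2⟩, h3⟩, h4⟩, hA⟩, hE⟩, h5⟩, h6⟩, h7⟩ := h
  have hz : 0 < zN V := by unfold zN; positivity
  have h8 := ltF_sound h7
    (le_vl_mlU (le_vl_mlU (le_vl_mlU (le_vl_mlU
      (le_vl_pwU 17 100000 (by norm_num) (vl_self 1388).ge)
      (le_vl_pwU 17 100000 (by norm_num) (vl_self (sN U)).ge))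
      (le_vl_pwU 20 (7 * 100000) (by norm_num) (vl_self 100000).ge))
      (le_vl_pwU 17 A hA (vl_self V).ge)) (le_vl_pwU 17 E hE (vl_self 10000).ge))
    (vl_mlL (vl_mlL (vl_mlL (vl_mlL
      (vl_pwL 17 100000 (by norm_num) (vl_self 1000).le)
      (vl_pwL 17 100000 hz (vl_self (zN V)).le))
      (vl_pwL 17 A (by norm_num) (vl_self 100000).le))
      (vl_pwL 17 E h3 (vl_self U).le)) (vl_pwL 19 (4 * 100000) (by norm_num) (vl_self 10000).le))
  have := window_nat (c₁ := 1388) (c₂ := 1000) (D := 100000) (V := V) (W := 100000) (U := U)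
    (Y := 10000) (A := A) (E := E) (E' := E') (by norm_num) h1 h2 h3 h4 (by norm_num)
    (by norm_num) h5 h6 h8
  have e : ((1388 : ℕ) : ℝ) / ((1000 : ℕ) : ℝ) = 1.388 := by norm_num
  have e' : ((100000 : ℕ) : ℝ) = 100000 := by norm_num
  rw [e, e'] at this
  exact this

theorem okL_sound : ∀ (l : List (ℕ × ℕ × ℕ × ℕ)) (E' : ℕ), okL E' l = true →
    ∀ᶠ n : ℕ in atTop, ∀ k : ℕ, ((E' : ℝ) / 100000) * n < 2 ^ k →
      (2 : ℝ) ^ k ≤ ((endL E' l : ℕ) : ℝ) / 100000 * n →
      ¬ (unitGraph n).Colorable ⌊(1.388 : ℝ) ^ n⌋₊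
  | [], E', _ => by
    filter_upwards with n k h1 h2
    rw [endL] at h2
    linarith
  | (V, U, A, E) :: l, E', h => by
    rw [okL, Bool.and_eq_true] at h
    filter_upwards [okW_sound h.1, okL_sound l E h.2] with n h1 h2 k h3 h4
    rw [endL] at h4
    rcases le_or_gt ((2 : ℝ) ^ k) ((E : ℝ) / 100000 * n) with h5 | h5
    · exact h1 k h3.le h5
    · exact h2 k h5 h4

/-- the windows -/
def wins : List (ℕ × ℕ × ℕ × ℕ) :=
  [(28361, 1112, 43775, 21892), (28366, 1112, 43782, 21896), (28372, 1112, 43791, 21902),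
   (28380, 1113, 43803, 21908), (28388, 1113, 43815, 21915), (28397, 1113, 43829, 21923),
   (28408, 1114, 43845, 21933), (28421, 1114, 43865, 21944), (28436, 1115, 43887, 21957),
   (28453, 1115, 43912, 21971), (28472, 1116, 43941, 21988), (28495, 1117, 43975, 22007),
   (28520, 1118, 44013, 22029), (28550, 1119, 44057, 22054), (28583, 1120, 44107, 22083),
   (28622, 1122, 44165, 22116), (28666, 1124, 44231, 22154), (28717, 1126, 44307, 22197),
   (28774, 1128, 44393, 22246), (28839, 1130, 44490, 22302), (28914, 1133, 44603, 22366),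
   (28999, 1137, 44731, 22439), (29096, 1141, 44876, 22522), (29207, 1145, 45043, 22617),
   (29333, 1150, 45233, 22725), (29476, 1162, 45449, 22848), (29639, 1162, 45695, 22987),
   (29822, 1169, 45972, 23144), (30029, 1177, 46287, 23322), (30263, 1187, 46642, 23522),
   (30525, 1209, 47042, 23747), (30820, 1222, 47493, 24000), (31149, 1237, 47998, 24282),
   (31515, 1253, 48563, 24597), (31922, 1272, 49193, 24946), (32370, 1292, 49891, 25332),
   (32863, 1314, 50663, 25756), (33401, 1338, 51511, 26220), (33985, 1365, 52439, 26725),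
   (34615, 1394, 53448, 27270), (35289, 1425, 54539, 27855), (36005, 1458, 55709, 28478),
   (36759, 1492, 56955, 29136), (37545, 1529, 58270, 29825), (38358, 1567, 59649, 30542),
   (39191, 1606, 61082, 31279), (40036, 1646, 62557, 32031), (40884, 1687, 64061, 32791),
   (41727, 1727, 65581, 33551), (42556, 1768, 67100, 34304), (43365, 1807, 68607, 35043),
   (44145, 1846, 70085, 35762), (44891, 1883, 71523, 36455), (45599, 1919, 72909, 37117),
   (46265, 1953, 74233, 37744), (46886, 1984, 75487, 38334), (47462, 2014, 76667, 38884),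
   (47992, 2042, 77767, 39394), (48477, 2067, 78786, 39864), (48919, 2090, 79725, 40294),
   (49320, 2112, 80587, 40687), (49682, 2131, 81372, 41043), (50007, 2148, 82084, 41364),
   (50298, 2164, 82726, 41653), (50558, 2164, 83304, 41912), (50790, 2178, 83823, 42144),
   (50996, 2191, 84286, 42350), (51178, 2212, 84698, 42534), (51340, 2212, 85066, 42697),
   (51483, 2220, 85392, 42841), (51609, 2228, 85681, 42969), (51720, 2235, 85936, 43081),
   (51817, 2241, 86159, 43179), (51902, 2247, 86355, 43266), (51978, 2251, 86531, 43343),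
   (52044, 2255, 86684, 43410), (52102, 2259, 86819, 43470), (52153, 2262, 86938, 43522),
   (52198, 2265, 87043, 43568), (52237, 2268, 87134, 43608), (52272, 2270, 87215, 43643),
   (52302, 2272, 87285, 43674), (52328, 2273, 87346, 43700), (52350, 2275, 87398, 43723),
   (52370, 2276, 87444, 43743), (52387, 2277, 87484, 43761), (52402, 2278, 87519, 43776)]

set_option maxRecDepth 100000 in
theorem okL_wins : okL 21888 wins = true := by decide +kernel

theorem endL_wins : 43776 ≤ endL 21888 wins := by decide +kernel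

/-- **Lower bound for all large dimensions.** -/
theorem lower_all : ∀ᶠ n : ℕ in atTop, ¬ (unitGraph n).Colorable ⌊(1.388 : ℝ) ^ n⌋₊ := by
  filter_upwards [okL_sound wins 21888 okL_wins, eventually_ge_atTop 3] with n h1 h2
  have h2' : (3 : ℝ) ≤ n := by exact_mod_cast h2
  obtain ⟨k, hk1, hk2⟩ := exists_nat_pow_near (x := (43776 : ℝ) / 100000 * n) (y := 2)
    (by linarith) (by norm_num)
  apply h1 k
  · rw [pow_succ] at hk2
    push_cast
    linarith
  · refine hk1.trans ?_
    have h3 : ((43776 : ℕ) : ℝ) ≤ ((endL 21888 wins : ℕ) : ℝ) := by exact_mod_cast endL_wins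
    push_cast at h3
    have h4 : (0 : ℝ) ≤ n := by linarith
    rw [div_mul_eq_mul_div, div_mul_eq_mul_div]
    gcongr

end Pool.Agent.H45.Chi
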