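import Pool.Agent.H45.Chi.Graph

/-!
# Counting words
-/

set_option autoImplicit false

open Finset Filter Topology

namespace Pool.Agent.H45.Chi

/-- generating function of the weights -/
noncomputable def Su (u : ℝ) : ℝ := 1 + 2 * u + 2 * u ^ 2 + 2 * u ^ 4

/-- generating function of the norms -/
noncomputable def Zv (v : ℝ) : ℝ := 1 + 2 * v + 2 * v ^ 3 + 2 * v ^ 7

/-- its logarithmic derivative times itself -/
noncomputable def Mv (v : ℝ) : ℝ := 2 * v + 6 * v ^ 3 + 14 * v ^ 7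

theorem sum_ex (u : ℝ) : ∑ j : Fin 7, u ^ ex j = Su u := by
  rw [Fin.sum_univ_seven]
  simp [ex, Su]
  ring

theorem sum_ab (v : ℝ) : ∑ j : Fin 7, v ^ ab j = Zv v := by
  rw [Fin.sum_univ_seven]
  simp [ab, Zv]
  ring

theorem sum_ab_mul (v : ℝ) : ∑ j : Fin 7, v ^ ab j * ab j = Mv v := by
  rw [Fin.sum_univ_seven]
  simp [ab, Mv]
  ring

theorem WW_le {n r : ℕ} {u : ℝ} (hu : 0 < u) (hu1 : u ≤ 1) :
    ((WW n r).card : ℝ) * u ^ r ≤ Su u ^ n := by
  rw [← sum_ex, Fintype.sum_pow]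
  calc ((WW n r).card : ℝ) * u ^ r = ∑ κ ∈ WW n r, u ^ r := by
        rw [Finset.sum_const, nsmul_eq_mul]
    _ ≤ ∑ κ ∈ WW n r, ∏ i, u ^ ex (κ i) := by
        apply Finset.sum_le_sum
        intro κ hκ
        have : ∑ i, ex (κ i) ≤ r := by simpa [WW] using hκ
        rw [Finset.prod_pow_eq_pow_sum]
        exact pow_le_pow_of_le_one hu.le hu1 this
    _ ≤ ∑ κ : Fin n → Fin 7, ∏ i, u ^ ex (κ i) := by
        apply Finset.sum_le_sum_of_subset_of_nonneg (Finset.subset_univ _)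
        intro κ _ _
        positivity

/-- exponential tail bound -/
theorem tail {P : Fin 7 → ℝ} (hP : ∀ a, 0 < P a) {w : Fin 7 → ℝ} (hw : ∑ a, P a * w a < 0) :
    ∃ θ : ℝ, 0 ≤ θ ∧ θ < ∑ a, P a ∧ ∀ n : ℕ,
      ∑ x : Fin n → Fin 7 with 0 ≤ ∑ i, w (x i), ∏ i, P (x i) ≤ θ ^ n := by
  have hd : HasDerivAt (fun s : ℝ => ∑ a, P a * Real.exp (s * w a)) (∑ a, P a * w a) 0 := by
    have h : ∀ a ∈ (Finset.univ : Finset (Fin 7)),
        HasDerivAt (fun s : ℝ => P a * Real.exp (s * w a)) (P a * w a) 0 := by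
      intro a _
      have h1 : HasDerivAt (fun s : ℝ => s * w a) (w a) 0 := by
        simpa using (hasDerivAt_id (0 : ℝ)).mul_const (w a)
      have h2 := (h1.exp).const_mul (P a)
      simpa using h2
    exact HasDerivAt.fun_sum h
  have hev : ∀ᶠ s in 𝓝[>] (0 : ℝ), (∑ a, P a * Real.exp (s * w a)) < ∑ a, P a := by
    have h1 := hd.hasDerivWithinAt (s := Set.Ioi 0)
    rw [hasDerivWithinAt_iff_tendsto_slope' (by simp)] at h1
    filter_upwards [h1.eventually_lt_const hw, self_mem_nhdsWithin] with s h2 h3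
    have h3 : 0 < s := h3
    rw [slope_def_field] at h2
    simp only [zero_mul, Real.exp_zero, mul_one, sub_zero] at h2
    rw [div_lt_iff₀ h3] at h2
    linarith
  obtain ⟨s, hs1, hs2⟩ := (hev.and self_mem_nhdsWithin).exists
  have hs2 : 0 < s := hs2
  refine ⟨∑ a, P a * Real.exp (s * w a), ?_, hs1, fun n => ?_⟩
  · exact Finset.sum_nonneg fun a _ => (mul_pos (hP a) (Real.exp_pos _)).le
  · rw [Fintype.sum_pow]
    calc ∑ x : Fin n → Fin 7 with 0 ≤ ∑ i, w (x i), ∏ i, P (x i)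
        ≤ ∑ x : Fin n → Fin 7 with 0 ≤ ∑ i, w (x i), ∏ i, (P (x i) * Real.exp (s * w (x i))) := by
          apply Finset.sum_le_sum
          intro x hx
          rw [Finset.mem_filter] at hx
          rw [Finset.prod_mul_distrib, ← Real.exp_sum, ← Finset.mul_sum]
          have h1 : 1 ≤ Real.exp (s * ∑ i, w (x i)) :=
            Real.one_le_exp (mul_nonneg hs2.le hx.2)
          have h2 : 0 < ∏ i, P (x i) := Finset.prod_pos fun i _ => hP _
          nlinarith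
      _ ≤ ∑ x : Fin n → Fin 7, ∏ i, (P (x i) * Real.exp (s * w (x i))) := by
          apply Finset.sum_le_sum_of_subset_of_nonneg (Finset.subset_univ _)
          intro x _ _
          exact Finset.prod_nonneg fun i _ => (mul_pos (hP _) (Real.exp_pos _)).le

theorem Zv_pos {v : ℝ} (hv : 0 < v) : 0 < Zv v := by unfold Zv; positivity

theorem Su_pos {v : ℝ} (hv : 0 < v) : 0 < Su v := by unfold Su; positivity

/-- many words of norm at most `y n` -/
theorem BB_ge {v a y : ℝ} (hv : 0 < v) (hv1 : v < 1) (ha : a * Zv v < Mv v)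
    (hy : Mv v < y * Zv v) : ∀ᶠ n : ℕ in atTop, ∀ r : ℕ, y * n ≤ r →
      1 / 2 * (Zv v * v ^ (-a)) ^ n ≤ ((BB n r).card : ℝ) := by
  have hZ := Zv_pos hv
  have hP : ∀ a : Fin 7, 0 < v ^ ab a := fun a => by positivity
  obtain ⟨θ₁, h10, h11, h12⟩ := tail hP (w := fun j => (ab j : ℝ) - y) (by
    simp only [mul_sub]
    rw [Finset.sum_sub_distrib, sum_ab_mul, ← Finset.sum_mul, sum_ab]
    linarith)
  obtain ⟨θ₂, h20, h21, h22⟩ := tail hP (w := fun j => a - (ab j : ℝ)) (by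
    simp only [mul_sub]
    rw [Finset.sum_sub_distrib, sum_ab_mul, ← Finset.sum_mul, sum_ab]
    linarith)
  rw [sum_ab] at h11 h21
  have hl1 : Tendsto (fun n : ℕ => (θ₁ / Zv v) ^ n) atTop (𝓝 0) :=
    tendsto_pow_atTop_nhds_zero_of_lt_one (by positivity) (by rwa [div_lt_one hZ])
  have hl2 : Tendsto (fun n : ℕ => (θ₂ / Zv v) ^ n) atTop (𝓝 0) :=
    tendsto_pow_atTop_nhds_zero_of_lt_one (by positivity) (by rwa [div_lt_one hZ])
  filter_upwards [hl1.eventually_lt_const (by norm_num : (0 : ℝ) < 1 / 4),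
    hl2.eventually_lt_const (by norm_num : (0 : ℝ) < 1 / 4)] with n hn1 hn2 r hr
  rw [div_pow, div_lt_iff₀ (by positivity)] at hn1 hn2
  set P : (Fin n → Fin 7) → ℝ := fun x => ∏ i, v ^ ab (x i) with hPdef
  have hPx : ∀ x, 0 < P x := fun x => Finset.prod_pos fun i _ => hP _
  have htot : ∑ x, P x = Zv v ^ n := by rw [← sum_ab, Fintype.sum_pow]
  set A : Finset (Fin n → Fin 7) := {x | 0 ≤ ∑ i, ((ab (x i) : ℝ) - y)} with hA
  set B : Finset (Fin n → Fin 7) := {x | 0 ≤ ∑ i, (a - (ab (x i) : ℝ))} with hB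
  have hsA : ∑ x ∈ A, P x ≤ θ₁ ^ n := h12 n
  have hsB : ∑ x ∈ B, P x ≤ θ₂ ^ n := h22 n
  have hcov : Zv v ^ n ≤ ∑ x ∈ A, P x + ∑ x ∈ B, P x + ∑ x ∈ (A ∪ B)ᶜ, P x := by
    rw [← htot, ← Finset.sum_add_sum_compl (A ∪ B)]
    have := Finset.sum_union_inter (s₁ := A) (s₂ := B) (f := P)
    have h0 : 0 ≤ ∑ x ∈ A ∩ B, P x := Finset.sum_nonneg fun x _ => (hPx x).le
    linarith
  have hG : ∀ x ∈ (A ∪ B)ᶜ, x ∈ BB n r ∧ P x ≤ (v ^ a) ^ n := by
    intro x hx
    rw [Finset.mem_compl, Finset.mem_union, not_or] at hx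
    have h1 : ∑ i, ((ab (x i) : ℝ) - y) < 0 := by simpa [hA] using hx.1
    have h2 : ∑ i, (a - (ab (x i) : ℝ)) < 0 := by simpa [hB] using hx.2
    rw [Finset.sum_sub_distrib] at h1 h2
    simp only [Finset.sum_const, Finset.card_univ, Fintype.card_fin, nsmul_eq_mul] at h1 h2
    constructor
    · have h3 : ((∑ i, ab (x i) : ℕ) : ℝ) ≤ r := by push_cast; linarith
      have h4 : ∑ i, ab (x i) ≤ r := by exact_mod_cast h3
      simpa [BB] using h4
    · simp only [hPdef]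
      rw [Finset.prod_pow_eq_pow_sum, ← Real.rpow_natCast v, ← Real.rpow_mul_natCast hv.le]
      apply Real.rpow_le_rpow_of_exponent_ge hv hv1.le
      push_cast
      linarith
  have hfin : ∑ x ∈ (A ∪ B)ᶜ, P x ≤ ((BB n r).card : ℝ) * (v ^ a) ^ n := by
    calc ∑ x ∈ (A ∪ B)ᶜ, P x ≤ ∑ x ∈ (A ∪ B)ᶜ, (v ^ a) ^ n :=
          Finset.sum_le_sum fun x hx => (hG x hx).2
      _ = (((A ∪ B)ᶜ).card : ℝ) * (v ^ a) ^ n := by rw [Finset.sum_const, nsmul_eq_mul]
      _ ≤ _ := by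
          apply mul_le_mul_of_nonneg_right _ (by positivity)
          exact_mod_cast Finset.card_le_card fun x hx => (hG x hx).1
  have hva : 0 < v ^ a := Real.rpow_pos_of_pos hv _
  have e : (Zv v * v ^ (-a)) ^ n = Zv v ^ n / (v ^ a) ^ n := by
    rw [mul_pow, Real.rpow_neg hv.le, inv_pow, div_eq_mul_inv]
  rw [e, ← mul_div_assoc, div_le_iff₀ (by positivity)]
  linarith

end Pool.Agent.H45.Chi
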