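import Pool.Agent.H45.Chi.Poly
import Pool.Agent.H43.L1.Defs

/-!
# From colourings of `l_1^n` to a counting inequality
-/

set_option autoImplicit false

open Finset

namespace Pool.Agent.H45.Chi

open Pool.Agent.H43.L1

/-- the absolute values of the letters -/
def ab : Fin 7 → ℕ := ![7, 3, 1, 0, 1, 3, 7]

theorem sh_inj : Function.Injective sh := by decide

theorem sh_ab (a b : Fin 7) : 2 * max (sh a) (sh b) ≤ sh a + sh b + (ab a + ab b) := by
  revert a b; decide

theorem sh_le (a : Fin 7) : sh a ≤ 7 + ab a := by revert a; decide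

theorem le_sh (a : Fin 7) : 7 ≤ sh a + ab a := by revert a; decide

/-- the words of `l_1`-norm at most `r` -/
def BB (n r : ℕ) : Finset (Fin n → Fin 7) := univ.filter fun x => ∑ i, ab (x i) ≤ r

theorem abs_max (a b : ℝ) : |a - b| = 2 * max a b - a - b := by
  rcases le_total a b with h | h
  · rw [abs_of_nonpos (by linarith), max_eq_right h]; ring
  · rw [abs_of_nonneg (by linarith), max_eq_left h]; ring

theorem count_le {n K k : ℕ} (h : (unitGraph n).Colorable K) :
    (BB n (2 * 2 ^ k - 1)).card ≤ K * (4 * 2 ^ k) * (WW n (2 ^ k - 1)).card := by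
  classical
  obtain ⟨C⟩ := h
  set q := 2 ^ k with hq
  have hq1 : 1 ≤ q := Nat.one_le_two_pow
  have hqR : (0 : ℝ) < q := by exact_mod_cast hq1
  set pt : (Fin n → Fin 7) → (Fin n → ℝ) := fun x i => (sh (x i) : ℝ) / (2 * q) with hpt
  set f : (Fin n → Fin 7) → Fin K × ℕ := fun x => (C (pt x), ∑ i, sh (x i)) with hf
  set t : Finset (Fin K × ℕ) := univ ×ˢ Finset.Icc (7 * n - (2 * q - 1)) (7 * n + (2 * q - 1))
    with ht
  have hmaps : ∀ x ∈ BB n (2 * q - 1), f x ∈ t := by
    intro x hx
    have hx' : ∑ i, ab (x i) ≤ 2 * q - 1 := by simpa [BB] using hx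
    have h1 : ∑ i, sh (x i) ≤ ∑ i : Fin n, 7 + ∑ i, ab (x i) := by
      rw [← Finset.sum_add_distrib]
      exact Finset.sum_le_sum fun i _ => sh_le _
    have h2 : ∑ i : Fin n, 7 ≤ ∑ i, sh (x i) + ∑ i, ab (x i) := by
      rw [← Finset.sum_add_distrib]
      exact Finset.sum_le_sum fun i _ => le_sh _
    simp only [Finset.sum_const, Finset.card_univ, Fintype.card_fin, smul_eq_mul] at h1 h2
    rw [ht, Finset.mem_product]
    refine ⟨Finset.mem_univ _, ?_⟩
    rw [Finset.mem_Icc]
    constructor <;> simp only [hf] <;> omega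
  have hfib : ∀ b ∈ t, #{x ∈ BB n (2 * q - 1) | f x = b} ≤ (WW n (q - 1)).card := by
    intro b _
    apply card_le (s := b.2)
    · intro x hx
      rw [Finset.mem_filter] at hx
      rw [← hx.2]
    · intro x hx y hy hxy z hz hdvd
      rw [Finset.mem_filter] at hx hy
      have hx' : ∑ i, ab (x i) ≤ 2 * q - 1 := by simpa [BB] using hx.1
      have hy' : ∑ i, ab (y i) ≤ 2 * q - 1 := by simpa [BB] using hy.1
      have hsx : ∑ i, sh (x i) = b.2 := by rw [← hx.2]
      have hsy : ∑ i, sh (y i) = b.2 := by rw [← hy.2]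
      have hcx : C (pt x) = b.1 := by rw [← hx.2]
      have hcy : C (pt y) = b.1 := by rw [← hy.2]
      have h1 : 2 * ∑ i, max (sh (x i)) (sh (y i)) ≤
          ∑ i, sh (x i) + ∑ i, sh (y i) + (∑ i, ab (x i) + ∑ i, ab (y i)) := by
        rw [Finset.mul_sum, ← Finset.sum_add_distrib, ← Finset.sum_add_distrib,
          ← Finset.sum_add_distrib]
        exact Finset.sum_le_sum fun i _ => sh_ab _ _
      have hzq : z < 2 * q := by omega
      obtain ⟨w, hw⟩ := hdvd
      rw [← hq] at hw
      have hw2 : w < 2 := by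
        by_contra hc
        have : q * 2 ≤ q * w := Nat.mul_le_mul_left _ (by omega)
        omega
      have hsum : ∑ i, |(sh (x i) : ℝ) - sh (y i)| = 2 * (z : ℝ) := by
        have e : ∀ i, |(sh (x i) : ℝ) - sh (y i)| =
            2 * (max (sh (x i)) (sh (y i)) : ℕ) - sh (x i) - sh (y i) := by
          intro i
          rw [abs_max]; push_cast; ring
        rw [Finset.sum_congr rfl fun i _ => e i, Finset.sum_sub_distrib, Finset.sum_sub_distrib,
          ← Finset.mul_sum]
        have h3 : ((∑ i, max (sh (x i)) (sh (y i)) : ℕ) : ℝ) = b.2 + z := by exact_mod_cast hz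
        have h4 : ((∑ i, sh (x i) : ℕ) : ℝ) = b.2 := by exact_mod_cast hsx
        have h5 : ((∑ i, sh (y i) : ℕ) : ℝ) = b.2 := by exact_mod_cast hsy
        rw [Nat.cast_sum] at h3 h4 h5
        rw [h3, h4, h5]; ring
      interval_cases w
      · apply hxy
        have hz0 : z = 0 := by omega
        rw [hz0] at hsum
        simp only [Nat.cast_zero, mul_zero] at hsum
        have h0 := (Finset.sum_eq_zero_iff_of_nonneg (fun i _ => abs_nonneg _)).1 hsum
        funext i
        have h6 := h0 i (Finset.mem_univ _)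
        rw [abs_eq_zero, sub_eq_zero] at h6
        exact sh_inj (by exact_mod_cast h6)
      · have hz1 : z = q := by omega
        have hadj : (unitGraph n).Adj (pt x) (pt y) := by
          change ∑ i, |pt x i - pt y i| = 1
          have e : ∀ i, |pt x i - pt y i| = |(sh (x i) : ℝ) - sh (y i)| * (1 / (2 * q)) := by
            intro i
            simp only [hpt]
            rw [← sub_div, abs_div, abs_of_pos (by positivity : (0 : ℝ) < 2 * q)]
            ring
          rw [Finset.sum_congr rfl fun i _ => e i, ← Finset.sum_mul, hsum, hz1]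
          field_simp
        exact C.valid hadj (hcx.trans hcy.symm)
  have hcard : t.card ≤ K * (4 * q) := by
    rw [ht, Finset.card_product, Finset.card_univ, Fintype.card_fin, Nat.card_Icc]
    apply Nat.mul_le_mul_left
    omega
  calc (BB n (2 * q - 1)).card ≤ (WW n (q - 1)).card * t.card :=
        Finset.card_le_mul_card_image_of_maps_to hmaps _ hfib
    _ ≤ (WW n (q - 1)).card * (K * (4 * q)) := Nat.mul_le_mul_left _ hcard
    _ = _ := mul_comm _ _

end Pool.Agent.H45.Chi
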