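import Pool.Agent.H45.Chi.Window

/-!
# The bound for infinitely many dimensions
-/

set_option autoImplicit false

open Finset Filter Topology

namespace Pool.Agent.H45.Chi

open Pool.Agent.H43.L1

theorem often {v c : ℝ} (hv : 0 < v) (hv1 : v < 1) (hc : 0 < c) (h : c * Su (v ^ 2) < Zv v) :
    ∃ᶠ n : ℕ in atTop, ¬ (unitGraph n).Colorable ⌊c ^ n⌋₊ := by
  have hZ := Zv_pos hv
  have hM : 0 < Mv v := by unfold Mv; positivity
  obtain ⟨τ, hτ, hτ0⟩ : ∃ τ : ℝ, c * Su (v ^ 2) < Zv v * v ^ (2 * τ) ∧ 0 < τ := by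
    have h1 : ContinuousAt (fun τ : ℝ => Zv v * v ^ (2 * τ)) 0 := by
      apply ContinuousAt.mul continuousAt_const
      exact (Real.continuous_const_rpow hv.ne').continuousAt.comp (by fun_prop)
    have h2 : ∀ᶠ τ : ℝ in 𝓝[>] 0, c * Su (v ^ 2) < Zv v * v ^ (2 * τ) := by
      apply (h1.tendsto.mono_left nhdsWithin_le_nhds).eventually_const_lt
      simpa using h
    obtain ⟨τ, h3, h4⟩ := (h2.and self_mem_nhdsWithin).exists
    exact ⟨τ, h3, h4⟩
  set m : ℝ := Mv v / Zv v with hm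
  have hm0 : 0 < m := by positivity
  have hmZ : m * Zv v = Mv v := by rw [hm]; field_simp
  set lo : ℝ := m / 2 + τ / 4 with hlo
  set hi : ℝ := m / 2 + τ / 2 with hhi
  have hlo0 : 0 < lo := by positivity
  have hhi0 : 0 < hi := by positivity
  have hlh : lo < hi := by rw [hlo, hhi]; linarith
  have hw := window (v := v) (u := v ^ 2) (a := m - τ) (lo := lo) (hi := hi) (c := c) hv hv1
    (by positivity) (by nlinarith) hc (by nlinarith) (by rw [hlo]; nlinarith) hhi0.le (by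
      have e : Zv v * v ^ (-(m - τ)) * (v ^ 2) ^ hi = Zv v * v ^ (2 * τ) := by
        rw [← Real.rpow_natCast v 2, ← Real.rpow_mul hv.le, mul_assoc, ← Real.rpow_add hv]
        congr 2
        rw [hhi]; push_cast; ring
      rw [e]; exact hτ)
  obtain ⟨N₀, hN₀⟩ := eventually_atTop.1 hw
  rw [frequently_atTop]
  intro N
  obtain ⟨k, hk⟩ := pow_unbounded_of_one_lt (max (hi * (max N N₀ : ℕ)) (lo * hi / (hi - lo)))
    (by norm_num : (1 : ℝ) < 2)
  have hk1 : hi * (max N N₀ : ℕ) < 2 ^ k := (le_max_left _ _).trans_lt hk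
  have hk2 : lo * hi / (hi - lo) < 2 ^ k := (le_max_right _ _).trans_lt hk
  rw [div_lt_iff₀ (by linarith)] at hk2
  set n : ℕ := ⌈(2 : ℝ) ^ k / hi⌉₊ with hn
  have h1 : (2 : ℝ) ^ k / hi ≤ n := Nat.le_ceil _
  have h2 : (n : ℝ) < 2 ^ k / hi + 1 := Nat.ceil_lt_add_one (by positivity)
  have h3 : max N N₀ ≤ n := by
    have : ((max N N₀ : ℕ) : ℝ) ≤ n := by
      refine le_trans ?_ h1
      rw [le_div_iff₀ hhi0]
      linarith
    exact_mod_cast this
  refine ⟨n, (le_max_left _ _).trans h3, hN₀ n ((le_max_right _ _).trans h3) k ?_ ?_⟩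
  · have h4 : (2 : ℝ) ^ k / hi * hi = 2 ^ k := by field_simp
    have h5 : lo * n ≤ lo * (2 ^ k / hi + 1) := mul_le_mul_of_nonneg_left h2.le hlo0.le
    have h6 : lo * (2 ^ k / hi + 1) ≤ 2 ^ k := by
      rw [← mul_le_mul_iff_left₀ hhi0]
      calc lo * (2 ^ k / hi + 1) * hi = lo * (2 ^ k / hi * hi) + lo * hi := by ring
        _ = lo * 2 ^ k + lo * hi := by rw [h4]
        _ ≤ _ := by linarith
    exact h5.trans h6
  · rw [div_le_iff₀ hhi0] at h1
    linarith

/-- **Lower bound for infinitely many dimensions.** -/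
theorem lower_often : ∃ᶠ n : ℕ in atTop, ¬ (unitGraph n).Colorable ⌊(1.407 : ℝ) ^ n⌋₊ := by
  apply often (v := 0.4014) (by norm_num) (by norm_num) (by norm_num)
  unfold Su Zv
  norm_num

end Pool.Agent.H45.Chi
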