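import Mathlib

/-!
# Frankl-Wilson over the field with two elements, for letters with gaps 1, 2, 4

MP_4e279d_co: lower bound for the chromatic number of the unit-distance graph of `l_1^d`.
-/

set_option autoImplicit false

open Finset Polynomial

namespace Pool.Agent.H45.Chi

/-- the letters `-7, -3, -1, 0, 1, 3, 7`, shifted by `7` -/
def sh : Fin 7 → ℕ := ![0, 4, 6, 7, 8, 10, 14]

/-- the weights of the threshold functions -/
def ex : Fin 7 → ℕ := ![0, 4, 2, 1, 1, 2, 4]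

/-- auxiliary exponents -/
def cc : Fin 7 → ℕ := ![14, 0, 4, 6, 7, 8, 10]

/-- the threshold functions -/
def phi (j a : Fin 7) : ZMod 2 := if j = 0 ∨ a < j then 1 else 0

theorem phi_mul (j a b : Fin 7) : phi j a * phi j b = phi j (max a b) := by
  revert j a b; decide

theorem sh_max (a b : Fin 7) : max (sh a) (sh b) = sh (max a b) := by
  revert a b; decide

theorem two_eq : (2 : (ZMod 2)[X]) = 0 := CharTwo.two_eq_zero

theorem tele (c : Fin 7) : (1 + X : (ZMod 2)[X]) ^ (sh c) =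
    ∑ j : Fin 7, C (phi j c) * (X ^ (ex j) * (1 + X) ^ (cc j)) := by
  have h2 := two_eq
  rw [Fin.sum_univ_seven]
  fin_cases c <;> simp [sh, ex, cc, phi]
  · linear_combination ((-(1 + X : (ZMod 2)[X]) ^ 14 + 2 * (1 + X) ^ 13 - 3 * (1 + X) ^ 12 +
      2 * (1 + X) ^ 11 - (1 + X) ^ 10 + (1 + X) ^ 9) + ((1 + X) ^ 7 - (1 + X) ^ 8) +
      ((1 + X) ^ 6 - (1 + X) ^ 7) + ((1 + X) ^ 5 - (1 + X) ^ 6) +
      (-(1 + X) ^ 4 + 2 * (1 + X) ^ 3 - 3 * (1 + X) ^ 2 + 2 * (1 + X))) * h2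
  · linear_combination ((-(1 + X : (ZMod 2)[X]) ^ 14 + 2 * (1 + X) ^ 13 - 3 * (1 + X) ^ 12 +
      2 * (1 + X) ^ 11 - (1 + X) ^ 10 + (1 + X) ^ 9) + ((1 + X) ^ 7 - (1 + X) ^ 8) +
      ((1 + X) ^ 6 - (1 + X) ^ 7) + ((1 + X) ^ 5 - (1 + X) ^ 6)) * h2
  · linear_combination ((-(1 + X : (ZMod 2)[X]) ^ 14 + 2 * (1 + X) ^ 13 - 3 * (1 + X) ^ 12 +
      2 * (1 + X) ^ 11 - (1 + X) ^ 10 + (1 + X) ^ 9) + ((1 + X) ^ 7 - (1 + X) ^ 8) +
      ((1 + X) ^ 6 - (1 + X) ^ 7)) * h2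
  · linear_combination ((-(1 + X : (ZMod 2)[X]) ^ 14 + 2 * (1 + X) ^ 13 - 3 * (1 + X) ^ 12 +
      2 * (1 + X) ^ 11 - (1 + X) ^ 10 + (1 + X) ^ 9) + ((1 + X) ^ 7 - (1 + X) ^ 8)) * h2
  · linear_combination ((-(1 + X : (ZMod 2)[X]) ^ 14 + 2 * (1 + X) ^ 13 - 3 * (1 + X) ^ 12 +
      2 * (1 + X) ^ 11 - (1 + X) ^ 10 + (1 + X) ^ 9)) * h2
  · linear_combination ((-(1 + X : (ZMod 2)[X]) ^ 14 + 2 * (1 + X) ^ 13 - 3 * (1 + X) ^ 12 +
      2 * (1 + X) ^ 11)) * h2

/-- the matrix `(1 + t) ^ max` in terms of threshold functions -/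
theorem kernel (a b : Fin 7) : (1 + X : (ZMod 2)[X]) ^ (max (sh a) (sh b)) =
    ∑ j : Fin 7, C (phi j a * phi j b) * (X ^ (ex j) * (1 + X) ^ (cc j)) := by
  rw [sh_max, tele]
  simp only [phi_mul]

variable {n : ℕ}

/-- products of threshold functions -/
def Phi (κ x : Fin n → Fin 7) : ZMod 2 := ∏ i, phi (κ i) (x i)

/-- the coefficients -/
noncomputable def Dk (m r : ℕ) (κ : Fin n → Fin 7) : ZMod 2 :=
  ((1 + X : (ZMod 2)[X]) ^ m * ∏ i, (X ^ (ex (κ i)) * (1 + X) ^ (cc (κ i)))).coeff r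

theorem Dk_eq_zero {m r : ℕ} {κ : Fin n → Fin 7} (h : r < ∑ i, ex (κ i)) : Dk m r κ = 0 := by
  unfold Dk
  rw [Finset.prod_mul_distrib, Finset.prod_pow_eq_pow_sum]
  rw [show ∀ A B : (ZMod 2)[X], A * (X ^ (∑ i, ex (κ i)) * B) = X ^ (∑ i, ex (κ i)) * (A * B) from
    fun A B => by ring]
  rw [coeff_X_pow_mul', if_neg (by omega)]

theorem coeff_eq (m r : ℕ) (x y : Fin n → Fin 7) :
    ((1 + X : (ZMod 2)[X]) ^ (m + ∑ i, max (sh (x i)) (sh (y i)))).coeff r =
      ∑ κ : Fin n → Fin 7, Dk m r κ * (Phi κ x * Phi κ y) := by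
  rw [pow_add, ← Finset.prod_pow_eq_pow_sum]
  simp only [kernel]
  rw [Finset.prod_univ_sum, Fintype.piFinset_univ, Finset.mul_sum, finsetSum_coeff]
  refine Finset.sum_congr rfl fun κ _ => ?_
  rw [Finset.prod_mul_distrib]
  have h : (∏ i, C (phi (κ i) (x i) * phi (κ i) (y i)) : (ZMod 2)[X]) = C (Phi κ x * Phi κ y) := by
    rw [← map_prod, Phi, Phi, ← Finset.prod_mul_distrib]
  rw [h, mul_left_comm, coeff_C_mul, Dk, mul_comm]

/-- `choose M (2 ^ k - 1)` is odd iff `2 ^ k` divides `M + 1` -/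
theorem choose_two (k : ℕ) : ∀ M : ℕ, ((M.choose (2 ^ k - 1) : ℕ) : ZMod 2) =
    if 2 ^ k ∣ M + 1 then 1 else 0 := by
  induction k with
  | zero => intro M; simp
  | succ k ih =>
    intro M
    have hL := Choose.choose_modEq_choose_mod_mul_choose_div_nat (n := M) (k := 2 ^ (k + 1) - 1)
      (p := 2)
    have hpos : 1 ≤ 2 ^ k := Nat.one_le_two_pow
    have e1 : (2 ^ (k + 1) - 1) % 2 = 1 := by rw [pow_succ]; omega
    have e2 : (2 ^ (k + 1) - 1) / 2 = 2 ^ k - 1 := by rw [pow_succ]; omega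
    rw [e1, e2, Nat.choose_one_right] at hL
    have h3 := (ZMod.natCast_eq_natCast_iff _ _ 2).2 hL
    rw [h3, Nat.cast_mul, ih]
    rcases Nat.even_or_odd' M with ⟨c, hc | hc⟩
    · have h4 : M % 2 = 0 := by omega
      have h5 : ¬ 2 ^ (k + 1) ∣ M + 1 := by
        intro h
        have : 2 ∣ M + 1 := (dvd_pow_self 2 (by omega)).trans h
        omega
      rw [h4, if_neg h5]; simp
    · have h4 : M % 2 = 1 := by omega
      have h6 : M / 2 = c := by omega
      have h5 : 2 ^ (k + 1) ∣ M + 1 ↔ 2 ^ k ∣ c + 1 := by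
        rw [hc, show 2 * c + 1 + 1 = 2 * (c + 1) by ring, pow_succ, mul_comm (2 ^ k) 2]
        exact Nat.mul_dvd_mul_iff_left (by norm_num)
      rw [h4, h6]
      simp only [h5]
      simp

theorem coeff_two (k M : ℕ) : ((1 + X : (ZMod 2)[X]) ^ M).coeff (2 ^ k - 1) =
    if 2 ^ k ∣ M + 1 then 1 else 0 := by
  rw [coeff_one_add_X_pow, choose_two]

/-- the functions of small weight -/
def WW (n r : ℕ) : Finset (Fin n → Fin 7) := univ.filter fun κ => ∑ i, ex (κ i) ≤ r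

/-- sets without pairs at distances divisible by `2 ^ k` are small -/
theorem card_le {k s : ℕ} {I : Finset (Fin n → Fin 7)} (hs : ∀ x ∈ I, ∑ i, sh (x i) = s)
    (hz : ∀ x ∈ I, ∀ y ∈ I, x ≠ y → ∀ z : ℕ, ∑ i, max (sh (x i)) (sh (y i)) = s + z →
      ¬ 2 ^ k ∣ z) : I.card ≤ (WW n (2 ^ k - 1)).card := by
  classical
  set q := 2 ^ k with hq
  have hq1 : 1 ≤ q := Nat.one_le_two_pow
  set m := q * (s + 1) - s - 1 with hm
  have hm' : m + s + 1 = q * (s + 1) := by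
    have : s + 1 ≤ q * (s + 1) := Nat.le_mul_of_pos_left _ hq1
    omega
  have hM : ∀ x ∈ I, ∀ y ∈ I, (∑ κ : Fin n → Fin 7, Dk m (q - 1) κ * (Phi κ x * Phi κ y)) =
      if x = y then 1 else 0 := by
    intro x hx y hy
    rw [← coeff_eq, hq, coeff_two, ← hq]
    have hle : s ≤ ∑ i, max (sh (x i)) (sh (y i)) := by
      rw [← hs x hx]
      exact Finset.sum_le_sum fun i _ => le_max_left _ _
    obtain ⟨z, hz'⟩ := Nat.exists_eq_add_of_le hle
    rw [hz']
    have e : m + (s + z) + 1 = q * (s + 1) + z := by omega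
    rw [e]
    simp only [Nat.dvd_add_right (dvd_mul_right q (s + 1))]
    by_cases hxy : x = y
    · subst hxy
      have : z = 0 := by
        simp only [max_self] at hz'
        rw [hs x hx] at hz'
        omega
      rw [this]; simp
    · rw [if_neg hxy, if_neg (hz x hx y hy hxy z hz')]
  have hM' : ∀ x ∈ I, ∀ y ∈ I, (∑ κ ∈ WW n (q - 1), Dk m (q - 1) κ * (Phi κ x * Phi κ y)) =
      if x = y then 1 else 0 := by
    intro x hx y hy
    rw [← hM x hx y hy]
    apply Finset.sum_subset (Finset.subset_univ _)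
    intro κ _ hκ
    have : q - 1 < ∑ i, ex (κ i) := by
      simpa [WW] using hκ
    rw [Dk_eq_zero this, zero_mul]
  have hli : LinearIndependent (ZMod 2)
      (fun (x : I) (κ : WW n (q - 1)) => Phi (κ : Fin n → Fin 7) (x : Fin n → Fin 7)) := by
    rw [Fintype.linearIndependent_iff]
    intro g hg y
    have h1 : ∀ κ : WW n (q - 1), ∑ x : I, g x * Phi (κ : Fin n → Fin 7) (x : Fin n → Fin 7) = 0 := by
      intro κ
      have := congrFun hg κ
      simpa [Finset.sum_apply] using this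
    have h2 : ∑ x : I, g x * (∑ κ : WW n (q - 1), Dk m (q - 1) (κ : Fin n → Fin 7) *
        (Phi (κ : Fin n → Fin 7) (x : Fin n → Fin 7) * Phi (κ : Fin n → Fin 7) (y : Fin n → Fin 7)))
        = 0 := by
      simp only [Finset.mul_sum]
      rw [Finset.sum_comm]
      apply Finset.sum_eq_zero
      intro κ _
      have h3 := h1 κ
      calc ∑ x : I, g x * (Dk m (q - 1) (κ : Fin n → Fin 7) *
          (Phi (κ : Fin n → Fin 7) (x : Fin n → Fin 7) * Phi (κ : Fin n → Fin 7) (y : Fin n → Fin 7)))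
          = (Dk m (q - 1) (κ : Fin n → Fin 7) * Phi (κ : Fin n → Fin 7) (y : Fin n → Fin 7)) *
            ∑ x : I, g x * Phi (κ : Fin n → Fin 7) (x : Fin n → Fin 7) := by
            rw [Finset.mul_sum]
            exact Finset.sum_congr rfl fun x _ => by ring
        _ = 0 := by rw [h3, mul_zero]
    have h4 : ∀ x : I, (∑ κ : WW n (q - 1), Dk m (q - 1) (κ : Fin n → Fin 7) *
        (Phi (κ : Fin n → Fin 7) (x : Fin n → Fin 7) * Phi (κ : Fin n → Fin 7) (y : Fin n → Fin 7)))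
        = if x = y then 1 else 0 := by
      intro x
      rw [Finset.sum_coe_sort (WW n (q - 1)) (fun κ => Dk m (q - 1) κ *
        (Phi κ (x : Fin n → Fin 7) * Phi κ (y : Fin n → Fin 7))), hM' x x.2 y y.2]
      by_cases hxy : x = y
      · rw [if_pos hxy, if_pos (by rw [hxy])]
      · rw [if_neg hxy, if_neg (fun h => hxy (Subtype.ext h))]
    simp only [h4] at h2
    simpa using h2
  have h := hli.fintype_card_le_finrank
  simpa using h

end Pool.Agent.H45.Chi
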