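import Pool.Agent.H45.Chi.Count

/-!
# The bound for `q / n` in a window
-/

set_option autoImplicit false

open Finset Filter Topology

namespace Pool.Agent.H45.Chi

open Pool.Agent.H43.L1

theorem window {v u a lo hi c : ℝ} (hv : 0 < v) (hv1 : v < 1) (hu : 0 < u) (hu1 : u ≤ 1)
    (hc : 0 < c) (ha : a * Zv v < Mv v) (hlo : Mv v < 2 * lo * Zv v) (hhi : 0 ≤ hi)
    (h : c * Su u < Zv v * v ^ (-a) * u ^ hi) :
    ∀ᶠ n : ℕ in atTop, ∀ k : ℕ, lo * n ≤ 2 ^ k → (2 : ℝ) ^ k ≤ hi * n →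
      ¬ (unitGraph n).Colorable ⌊c ^ n⌋₊ := by
  have hZ := Zv_pos hv
  have hS := Su_pos hu
  obtain ⟨y, hy1, hy2⟩ : ∃ y, Mv v < y * Zv v ∧ y < 2 * lo := by
    have h1 : Mv v / Zv v < 2 * lo := by rwa [div_lt_iff₀ hZ]
    obtain ⟨y, hy1, hy2⟩ := exists_between h1
    exact ⟨y, by rwa [div_lt_iff₀ hZ] at hy1, hy2⟩
  set ρ : ℝ := Zv v * v ^ (-a) * u ^ hi / (c * Su u) with hρ
  have hρ1 : 1 < ρ := by rw [hρ, one_lt_div (by positivity)]; exact h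
  have hlim : Tendsto (fun n : ℕ => (n : ℝ) * (1 / ρ) ^ n) atTop (𝓝 0) := by
    have := tendsto_self_mul_const_pow_of_lt_one (r := 1 / ρ) (by positivity)
      (by rw [div_lt_one (by linarith)]; exact hρ1)
    exact this
  filter_upwards [BB_ge hv hv1 ha hy1, (hlim.const_mul (8 * hi)).eventually_lt_const
    (by simp : 8 * hi * 0 < 1), eventually_ge_atTop 1,
    eventually_ge_atTop ⌈1 / (2 * lo - y)⌉₊] with n hn1 hn2 hn3 hn4 k hk1 hk2 hcol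
  have hcount := count_le (k := k) hcol
  set q := 2 ^ k with hq
  have hq1 : 1 ≤ q := Nat.one_le_two_pow
  have hqR : ((q : ℕ) : ℝ) = (2 : ℝ) ^ k := by rw [hq]; push_cast; rfl
  have hn0 : (0 : ℝ) < n := by exact_mod_cast hn3
  have hyn : y * n ≤ ((2 * q - 1 : ℕ) : ℝ) := by
    rw [Nat.cast_sub (by omega)]
    push_cast
    rw [hqR]
    have h1 : 1 / (2 * lo - y) ≤ n := (Nat.le_ceil _).trans (by exact_mod_cast hn4)
    rw [div_le_iff₀ (by linarith)] at h1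
    nlinarith
  have hB := hn1 (2 * q - 1) hyn
  have hW := WW_le (n := n) (r := q - 1) hu hu1
  have hK : ((⌊c ^ n⌋₊ : ℕ) : ℝ) ≤ c ^ n := Nat.floor_le (by positivity)
  have hcR : ((BB n (2 * q - 1)).card : ℝ) ≤ c ^ n * (4 * q) * ((WW n (q - 1)).card : ℝ) := by
    calc ((BB n (2 * q - 1)).card : ℝ)
        ≤ ((⌊c ^ n⌋₊ * (4 * q) * (WW n (q - 1)).card : ℕ) : ℝ) := by exact_mod_cast hcount
      _ = (⌊c ^ n⌋₊ : ℝ) * (4 * q) * ((WW n (q - 1)).card : ℝ) := by push_cast; ring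
      _ ≤ _ := by gcongr
  have hup : (u ^ hi) ^ n ≤ u ^ (q - 1) := by
    rw [← Real.rpow_mul_natCast hu.le, ← Real.rpow_natCast u (q - 1)]
    apply Real.rpow_le_rpow_of_exponent_ge hu hu1
    rw [Nat.cast_sub hq1, hqR]
    push_cast
    linarith
  have huhi : 0 < u ^ hi := Real.rpow_pos_of_pos hu _
  have hva : 0 < v ^ (-a) := Real.rpow_pos_of_pos hv _
  have h5 : 1 / 2 * (Zv v * v ^ (-a)) ^ n * (u ^ hi) ^ n ≤ c ^ n * (4 * (hi * n)) * Su u ^ n := by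
    calc 1 / 2 * (Zv v * v ^ (-a)) ^ n * (u ^ hi) ^ n
        ≤ (c ^ n * (4 * q) * ((WW n (q - 1)).card : ℝ)) * u ^ (q - 1) := by
          apply mul_le_mul (hB.trans hcR) hup (by positivity) (by positivity)
      _ = c ^ n * (4 * q) * (((WW n (q - 1)).card : ℝ) * u ^ (q - 1)) := by ring
      _ ≤ c ^ n * (4 * (hi * n)) * Su u ^ n := by
          have h6 : (4 : ℝ) * q ≤ 4 * (hi * n) := by rw [hqR]; linarith
          gcongr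
  have h7 : ρ ^ n ≤ 8 * hi * n := by
    rw [hρ, div_pow, div_le_iff₀ (by positivity), mul_pow _ (u ^ hi), mul_pow c]
    linarith
  have h8 : 8 * hi * (n * (1 / ρ) ^ n) < 1 := hn2
  rw [one_div, inv_pow, ← mul_assoc, ← div_eq_mul_inv, div_lt_one (by positivity)] at h8
  linarith

/-- numerical form of the hypotheses -/
theorem window_nat {c₁ c₂ D V W U Y A E E' : ℕ} (hD : 0 < D) (hV : 0 < V) (hVW : V < W)
    (hU : 0 < U) (hUY : U ≤ Y) (hc₁ : 0 < c₁) (hc₂ : 0 < c₂)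
    (h1 : A * (W ^ 7 + 2 * V * W ^ 6 + 2 * V ^ 3 * W ^ 4 + 2 * V ^ 7) <
      D * (2 * V * W ^ 6 + 6 * V ^ 3 * W ^ 4 + 14 * V ^ 7))
    (h2 : D * (2 * V * W ^ 6 + 6 * V ^ 3 * W ^ 4 + 14 * V ^ 7) <
      2 * E' * (W ^ 7 + 2 * V * W ^ 6 + 2 * V ^ 3 * W ^ 4 + 2 * V ^ 7))
    (h3 : c₁ ^ D * (Y ^ 4 + 2 * U * Y ^ 3 + 2 * U ^ 2 * Y ^ 2 + 2 * U ^ 4) ^ D *
      W ^ (7 * D) * V ^ A * Y ^ E <
      c₂ ^ D * (W ^ 7 + 2 * V * W ^ 6 + 2 * V ^ 3 * W ^ 4 + 2 * V ^ 7) ^ D * W ^ A * U ^ E *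
        Y ^ (4 * D)) :
    ∀ᶠ n : ℕ in atTop, ∀ k : ℕ, ((E' : ℝ) / D) * n ≤ 2 ^ k → (2 : ℝ) ^ k ≤ ((E : ℝ) / D) * n →
      ¬ (unitGraph n).Colorable ⌊((c₁ : ℝ) / c₂) ^ n⌋₊ := by
  have hD' : (0 : ℝ) < D := by exact_mod_cast hD
  have hV' : (0 : ℝ) < V := by exact_mod_cast hV
  have hW' : (0 : ℝ) < W := by exact_mod_cast (by omega : 0 < W)
  have hU' : (0 : ℝ) < U := by exact_mod_cast hU
  have hY' : (0 : ℝ) < Y := by exact_mod_cast (by omega : 0 < Y)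
  have hc1 : (0 : ℝ) < c₁ := by exact_mod_cast hc₁
  have hc2 : (0 : ℝ) < c₂ := by exact_mod_cast hc₂
  have eZ : Zv ((V : ℝ) / W) = (W ^ 7 + 2 * V * W ^ 6 + 2 * V ^ 3 * W ^ 4 + 2 * V ^ 7) / W ^ 7 := by
    unfold Zv; field_simp
  have eM : Mv ((V : ℝ) / W) = (2 * V * W ^ 6 + 6 * V ^ 3 * W ^ 4 + 14 * V ^ 7) / W ^ 7 := by
    unfold Mv; field_simp
  have eS : Su ((U : ℝ) / Y) = (Y ^ 4 + 2 * U * Y ^ 3 + 2 * U ^ 2 * Y ^ 2 + 2 * U ^ 4) / Y ^ 4 := by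
    unfold Su; field_simp
  have h1' : (A : ℝ) * (W ^ 7 + 2 * V * W ^ 6 + 2 * V ^ 3 * W ^ 4 + 2 * V ^ 7) <
      D * (2 * V * W ^ 6 + 6 * V ^ 3 * W ^ 4 + 14 * V ^ 7) := by exact_mod_cast h1
  have h2' : (D : ℝ) * (2 * V * W ^ 6 + 6 * V ^ 3 * W ^ 4 + 14 * V ^ 7) <
      2 * E' * (W ^ 7 + 2 * V * W ^ 6 + 2 * V ^ 3 * W ^ 4 + 2 * V ^ 7) := by exact_mod_cast h2
  have h3' : (c₁ : ℝ) ^ D * (Y ^ 4 + 2 * U * Y ^ 3 + 2 * U ^ 2 * Y ^ 2 + 2 * U ^ 4) ^ D *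
      W ^ (7 * D) * V ^ A * Y ^ E <
      c₂ ^ D * (W ^ 7 + 2 * V * W ^ 6 + 2 * V ^ 3 * W ^ 4 + 2 * V ^ 7) ^ D * W ^ A * U ^ E *
        Y ^ (4 * D) := by exact_mod_cast h3
  refine window (v := V / W) (u := U / Y) (a := A / D) (by positivity) ?_ (by positivity) ?_
    (by positivity) ?_ ?_ (by positivity) ?_
  · rw [div_lt_one hW']; exact_mod_cast hVW
  · rw [div_le_one hY']; exact_mod_cast hUY
  · rw [eZ, eM, ← mul_div_assoc, div_lt_div_iff_of_pos_right (by positivity), div_mul_eq_mul_div,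
      div_lt_iff₀ hD']
    linarith
  · rw [eZ, eM, ← mul_div_assoc, div_lt_div_iff_of_pos_right (by positivity)]
    rw [show 2 * ((E' : ℝ) / D) * (W ^ 7 + 2 * V * W ^ 6 + 2 * V ^ 3 * W ^ 4 + 2 * V ^ 7) =
      (2 * E' * (W ^ 7 + 2 * V * W ^ 6 + 2 * V ^ 3 * W ^ 4 + 2 * V ^ 7)) / D by ring,
      lt_div_iff₀ hD']
    linarith
  · have hv0 : (0 : ℝ) < V / W := by positivity
    have hu0 : (0 : ℝ) < U / Y := by positivity
    apply lt_of_pow_lt_pow_left₀ D (by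
      have := Zv_pos hv0
      positivity)
    rw [mul_pow, mul_pow (Zv _ * _), mul_pow (Zv _)]
    rw [← Real.rpow_mul_natCast hv0.le, ← Real.rpow_mul_natCast hu0.le]
    have e1 : -((A : ℝ) / D) * D = -(A : ℝ) := by field_simp
    have e2 : (E : ℝ) / D * D = (E : ℝ) := by field_simp
    rw [e1, e2, Real.rpow_neg hv0.le, Real.rpow_natCast, Real.rpow_natCast, eZ, eS]
    simp only [div_pow]
    rw [← pow_mul, ← pow_mul]
    rw [show ((c₁ : ℝ) ^ D / c₂ ^ D * ((Y ^ 4 + 2 * U * Y ^ 3 + 2 * U ^ 2 * Y ^ 2 + 2 * U ^ 4) ^ D /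
        Y ^ (4 * D))) = (c₁ ^ D * (Y ^ 4 + 2 * U * Y ^ 3 + 2 * U ^ 2 * Y ^ 2 + 2 * U ^ 4) ^ D) /
        (c₂ ^ D * Y ^ (4 * D)) by field_simp]
    rw [show ((W ^ 7 + 2 * V * W ^ 6 + 2 * V ^ 3 * W ^ 4 + 2 * V ^ 7) ^ D / W ^ (7 * D) *
        ((V : ℝ) ^ A / W ^ A)⁻¹ * (U ^ E / Y ^ E)) =
        ((W ^ 7 + 2 * V * W ^ 6 + 2 * V ^ 3 * W ^ 4 + 2 * V ^ 7) ^ D * W ^ A * U ^ E) /
        (W ^ (7 * D) * V ^ A * Y ^ E) by field_simp]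
    rw [div_lt_div_iff₀ (by positivity) (by positivity)]
    linarith

end Pool.Agent.H45.Chi
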